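import Pool.Agent.W102.TD.Defs

/-!
# TD-FINW: the Walsh part
-/

set_option autoImplicit false

namespace Pool.Agent.W565.TD

open Pool.Agent.W102.TD

theorem fs_zz {m : ℕ} (u v : Fin m → ZMod 2) : fs (zz u v) = u := by
  funext i
  unfold fs zz
  simp only [Fin.is_lt, dif_pos]

theorem sn_zz {m : ℕ} (u v : Fin m → ZMod 2) : sn (zz u v) = v := by
  funext i
  unfold sn zz
  have h : ¬ (m + (i : ℕ) < m) := by omega
  rw [dif_neg h]
  congr 1
  apply Fin.ext
  simp

theorem zz_fs_sn {m : ℕ} (v : Fin (2 * m) → ZMod 2) : zz (fs v) (sn v) = v := by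
  funext i
  unfold zz fs sn
  by_cases h : (i : ℕ) < m
  · rw [dif_pos h]
  · rw [dif_neg h]
    congr 1
    apply Fin.ext
    simp only
    omega

theorem zz_add {m : ℕ} (u v u' v' : Fin m → ZMod 2) (i : Fin (2 * m)) :
    zz (u + u') (v + v') i = zz u v i + zz u' v' i := by
  unfold zz
  by_cases h : (i : ℕ) < m
  · rw [dif_pos h, dif_pos h, dif_pos h]
    rfl
  · rw [dif_neg h, dif_neg h, dif_neg h]
    rfl

/-- pairs of field elements are vectors of length `2m` -/
noncomputable def E {F : Type} [Field F] [Algebra (ZMod 2) F] {m : ℕ}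
    (e : F ≃ₗ[ZMod 2] (Fin m → ZMod 2)) : F × F ≃ (Fin (2 * m) → ZMod 2) where
  toFun p := zz (e p.1) (e p.2)
  invFun v := (e.symm (fs v), e.symm (sn v))
  left_inv p := by
    simp only [fs_zz, sn_zz, LinearEquiv.symm_apply_apply]
  right_inv v := by
    simp only [LinearEquiv.apply_symm_apply, zz_fs_sn]

theorem FINW (h : BENT) : Pool.Agent.W102.TD.FINW := by
  intro F _ _ _ m hm hc α hα ho e a
  have h1 := h F m hm hc α hα ho
    (AddMonoidHom.mk' (fun p : F × F => ∑ i, a i * zz (e p.1) (e p.2) i) (by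
      intro p p'
      rw [← Finset.sum_add_distrib]
      refine Finset.sum_congr rfl fun i _ => ?_
      rw [Prod.fst_add, Prod.snd_add, map_add, map_add, zz_add, mul_add]))
  rw [← h1]
  congr 1
  symm
  refine Fintype.sum_equiv (E e) _ _ fun p => ?_
  change (-1 : ℤ) ^ (f0 m α p.1 p.2 + ∑ i, a i * zz (e p.1) (e p.2) i).val =
    (-1 : ℤ) ^ (f0 m α (e.symm (fs (zz (e p.1) (e p.2)))) (e.symm (sn (zz (e p.1) (e p.2)))) +
      ∑ i, a i * zz (e p.1) (e p.2) i).val
  rw [fs_zz, sn_zz, LinearEquiv.symm_apply_apply, LinearEquiv.symm_apply_apply]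

end Pool.Agent.W565.TD
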